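import Mathlib

/-!
# The number of labelled graded orders with four grade levels (MP_ac85ec, Q1)

`log₂ a₄(n) = n²/4 + (5/4) n + O(log n)` is false: there are arbitrarily large `n` with
`log₂ a₄(n) ≥ n²/4 + (5/4 + 1/288) n`.
-/

namespace Pool.Agent.Results.MP_ac85ec_co.FourLevels

open Finset

/-- `r` is a (reflexive) partial order on the ground set `Fin n`. -/
def IsOrder {n : ℕ} (r : Fin n → Fin n → Prop) : Prop :=
  (∀ x, r x x) ∧ (∀ x y, r x y → r y x → x = y) ∧ (∀ x y z, r x y → r y z → r x z)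

/-- The strict order `p < q`. -/
def Lt {n : ℕ} (r : Fin n → Fin n → Prop) (p q : Fin n) : Prop := r p q ∧ p ≠ q

/-- `q` covers `p`. -/
def Covers {n : ℕ} (r : Fin n → Fin n → Prop) (p q : Fin n) : Prop :=
  Lt r p q ∧ ¬ ∃ x, Lt r p x ∧ Lt r x q

/-- `g` is a normalised grade map: an order preserving map to the positive integers which
increases by one along covers and takes the value `1` on every component of the comparability
graph. -/
structure IsGrade {n : ℕ} (r : Fin n → Fin n → Prop) (g : Fin n → ℕ) : Prop where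
  pos : ∀ p, 1 ≤ g p
  mono : ∀ p q, r p q → g p ≤ g q
  step : ∀ p q, Covers r p q → g q = g p + 1
  norm : ∀ p, ∃ b, Relation.EqvGen r p b ∧ g b = 1

/-- `r` is a partial order that is graded with exactly `k` grade levels. -/
def GradedWithLevels (k : ℕ) {n : ℕ} (r : Fin n → Fin n → Prop) : Prop :=
  IsOrder r ∧ ∃ g : Fin n → ℕ, IsGrade r g ∧ (Set.range g).ncard = k

/-- The number `a_k(n)` of partial orders on an `n`-element ground set that are graded with exactly
`k` grade levels. -/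
noncomputable def a (k n : ℕ) : ℕ :=
  Nat.card {r : Fin n → Fin n → Prop // GradedWithLevels k r}

/-! ### Orders from levelled cover data -/

section data

variable {n : ℕ}

/-- The order generated by cover sets. -/
def ord (c : Fin n → Finset (Fin n)) : Fin n → Fin n → Prop :=
  Relation.ReflTransGen (fun x y => x ∈ c y)

/-- Compatible level function and cover sets. -/
def Valid (l : Fin n → ℕ) (c : Fin n → Finset (Fin n)) : Prop :=
  ∀ p, (∀ x ∈ c p, l x + 1 = l p) ∧ (0 < l p → (c p).Nonempty)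

variable {l l' : Fin n → ℕ} {c c' : Fin n → Finset (Fin n)}

lemma ord_cases (h : Valid l c) {x y : Fin n} (hxy : ord c x y) :
    x = y ∨ (x ∈ c y) ∨ (∃ w, ord c x w ∧ x ≠ w ∧ w ∈ c y ∧ l x < l w) := by
  induction hxy with
  | refl => exact Or.inl rfl
  | @tail b y hb hby ih =>
    by_cases hxb : x = b
    · subst hxb; exact Or.inr (Or.inl hby)
    · refine Or.inr (Or.inr ⟨b, hb, hxb, hby, ?_⟩)
      rcases ih with h1 | h1 | ⟨w, -, -, hw, hlw⟩
      · exact absurd h1 hxb
      · have := (h b).1 x h1; omega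
      · have := (h b).1 w hw; omega

lemma ord_lt (h : Valid l c) {x y : Fin n} (hxy : ord c x y) (hne : x ≠ y) : l x < l y := by
  rcases ord_cases h hxy with h1 | h1 | ⟨w, -, -, hw, hlw⟩
  · exact absurd h1 hne
  · have := (h y).1 x h1; omega
  · have := (h y).1 w hw; omega

lemma ord_le (h : Valid l c) {x y : Fin n} (hxy : ord c x y) : l x ≤ l y := by
  by_cases hne : x = y
  · rw [hne]
  · exact (ord_lt h hxy hne).le

lemma mem_of_ord (h : Valid l c) {x y : Fin n} (hxy : ord c x y) (hl : l x + 1 = l y) :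
    x ∈ c y := by
  rcases ord_cases h hxy with h1 | h1 | ⟨w, -, -, hw, hlw⟩
  · subst h1; omega
  · exact h1
  · have := (h y).1 w hw; omega

lemma isOrder_ord (h : Valid l c) : IsOrder (ord c) := by
  refine ⟨fun _ => Relation.ReflTransGen.refl, ?_, fun _ _ _ h1 h2 => h1.trans h2⟩
  intro x y hxy hyx
  by_contra hne
  have h1 := ord_lt h hxy hne
  have h2 := ord_le h hyx
  omega

lemma exists_bottom (h : Valid l c) (k : ℕ) : ∀ p, l p = k →
    ∃ b, Relation.EqvGen (ord c) p b ∧ l b + 1 = 1 := by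
  induction k with
  | zero => intro p hp; exact ⟨p, Relation.EqvGen.refl _, by omega⟩
  | succ k ih =>
    intro p hp
    obtain ⟨x, hx⟩ := (h p).2 (by omega)
    have hlx := (h p).1 x hx
    obtain ⟨b, hb, hb1⟩ := ih x (by omega)
    refine ⟨b, ?_, hb1⟩
    refine Relation.EqvGen.trans _ x _ (Relation.EqvGen.symm _ _ (Relation.EqvGen.rel _ _ ?_)) hb
    exact Relation.ReflTransGen.single hx

lemma isGrade_ord (h : Valid l c) : IsGrade (ord c) (fun p => l p + 1) where
  pos := fun p => by omega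
  mono := fun p q hpq => by have := ord_le h hpq; simpa using this
  step := by
    intro p q hpq
    have key : p ∈ c q := by
      rcases ord_cases h hpq.1.1 with h1 | h1 | ⟨w, how, hne, hw, hlw⟩
      · exact absurd h1 hpq.1.2
      · exact h1
      · exfalso
        apply hpq.2
        refine ⟨w, ⟨how, hne⟩, ⟨Relation.ReflTransGen.single hw, ?_⟩⟩
        intro hwq
        have := (h q).1 w hw
        rw [hwq] at this
        omega
    have := (h q).1 p key
    omega
  norm := fun p => exists_bottom h (l p) p rfl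

lemma exists_level (h : Valid l c) (z : Fin n) : ∀ j, j ≤ l z → ∃ p, l p + j = l z := by
  intro j
  induction j with
  | zero => intro _; exact ⟨z, rfl⟩
  | succ j ih =>
    intro hj
    obtain ⟨p, hp⟩ := ih (by omega)
    obtain ⟨x, hx⟩ := (h p).2 (by omega)
    have := (h p).1 x hx
    exact ⟨x, by omega⟩

lemma graded_ord (h : Valid l c) (z : Fin n) (hz : l z = 3) (hl : ∀ p, l p ≤ 3) :
    GradedWithLevels 4 (ord c) := by
  refine ⟨isOrder_ord h, _, isGrade_ord h, ?_⟩
  have : Set.range (fun p => l p + 1) = ((Finset.Icc 1 4 : Finset ℕ) : Set ℕ) := by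
    ext m
    simp only [Set.mem_range, Finset.coe_Icc, Set.mem_Icc]
    constructor
    · rintro ⟨p, rfl⟩
      have := hl p
      omega
    · rintro ⟨h1, h4⟩
      obtain ⟨p, hp⟩ := exists_level h z (4 - m) (by omega)
      exact ⟨p, by omega⟩
  rw [this, Set.ncard_coe_finset]
  rfl

lemma level_le (h : Valid l c) (h' : Valid l' c') (e : ord c = ord c') (k : ℕ) :
    ∀ p, l p = k → k ≤ l' p := by
  induction k with
  | zero => intro p _; omega
  | succ k ih =>
    intro p hp
    obtain ⟨x, hx⟩ := (h p).2 (by omega)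
    have hlx := (h p).1 x hx
    have h1 := ih x (by omega)
    have h2 : ord c x p := Relation.ReflTransGen.single hx
    have hne : x ≠ p := by rintro rfl; omega
    rw [e] at h2
    have := ord_lt h' h2 hne
    omega

lemma level_eq (h : Valid l c) (h' : Valid l' c') (e : ord c = ord c') : l = l' := by
  funext p
  exact le_antisymm (level_le h h' e _ p rfl) (level_le h' h e.symm _ p rfl)

lemma cover_eq (h : Valid l c) (h' : Valid l' c') (e : ord c = ord c') : c = c' := by
  have hl := level_eq h h' e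
  subst hl
  funext p
  ext x
  constructor
  · intro hx
    have hlx := (h p).1 x hx
    refine mem_of_ord h' ?_ hlx
    rw [← e]
    exact Relation.ReflTransGen.single hx
  · intro hx
    have hlx := (h' p).1 x hx
    refine mem_of_ord h ?_ hlx
    rw [e]
    exact Relation.ReflTransGen.single hx

end data

/-! ### Counting -/

section count

variable {n : ℕ}

/-- The level function determined by the levels `A` (second), `B` (first) and `{z}` (fourth). -/
def lev (z : Fin n) (A B : Finset (Fin n)) (p : Fin n) : ℕ :=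
  if p = z then 3 else if p ∈ A then 1 else if p ∈ B then 0 else 2

/-- Possible cover sets of `p`. -/
def T (z : Fin n) (A B : Finset (Fin n)) (p : Fin n) : Finset (Finset (Fin n)) :=
  if lev z A B p = 0 then {∅} else
    ((univ.filter (fun x => lev z A B x + 1 = lev z A B p)).powerset).erase ∅

lemma valid_of_mem {z : Fin n} {A B : Finset (Fin n)} {c : Fin n → Finset (Fin n)}
    (hc : c ∈ Fintype.piFinset (T z A B)) : Valid (lev z A B) c := by
  intro p
  have h := Fintype.mem_piFinset.1 hc p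
  unfold T at h
  split_ifs at h with h0
  · rw [mem_singleton] at h
    rw [h]
    refine ⟨by simp, fun h1 => by omega⟩
  · rw [mem_erase, mem_powerset] at h
    refine ⟨fun x hx => ?_, fun _ => Finset.nonempty_iff_ne_empty.2 h.1⟩
    have := h.2 hx
    simpa using this

/-- The data counted. -/
def Idx (z : Fin n) (s t : ℕ) : Finset (Σ _ : Finset (Fin n), Σ _ : Finset (Fin n),
    (Fin n → Finset (Fin n))) :=
  (powersetCard s (univ.erase z)).sigma (fun A =>
    (powersetCard t ((univ.erase z) \ A)).sigma (fun B => Fintype.piFinset (T z A B)))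

lemma mem_A {z : Fin n} {A B : Finset (Fin n)} {s : ℕ}
    (hA : A ∈ powersetCard s (univ.erase z)) (p : Fin n) : p ∈ A ↔ lev z A B p = 1 := by
  have hz : z ∉ A := fun h => by
    have := (mem_powersetCard.1 hA).1 h
    simp at this
  unfold lev
  by_cases h1 : p = z
  · subst h1; simp [hz]
  · by_cases h2 : p ∈ A
    · simp [h1, h2]
    · by_cases h3 : p ∈ B <;> simp [h1, h2, h3]

lemma mem_B {z : Fin n} {A B : Finset (Fin n)} {t : ℕ}
    (hB : B ∈ powersetCard t ((univ.erase z) \ A)) (p : Fin n) : p ∈ B ↔ lev z A B p = 0 := by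
  have hz : ∀ q ∈ B, q ≠ z ∧ q ∉ A := fun q h => by
    have := (mem_powersetCard.1 hB).1 h
    simpa using this
  unfold lev
  by_cases h1 : p = z
  · simp only [h1, if_true]
    constructor
    · intro h; exact absurd rfl (hz z h).1
    · intro h; omega
  · by_cases h2 : p ∈ A
    · simp only [h1, h2, if_true, if_false]
      constructor
      · intro h; exact absurd h2 (hz p h).2
      · intro h; omega
    · by_cases h3 : p ∈ B <;> simp [h1, h2, h3]

lemma lev_le (z : Fin n) (A B : Finset (Fin n)) (p : Fin n) : lev z A B p ≤ 3 := by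
  unfold lev
  split_ifs <;> omega

lemma card_idx_le (z : Fin n) (s t : ℕ) : (Idx z s t).card ≤ a 4 n := by
  classical
  have h1 : (Idx z s t).card = Nat.card (Idx z s t) := by
    rw [Nat.card_eq_fintype_card, Fintype.card_coe]
  rw [h1]
  unfold a
  have hmem : ∀ d : Idx z s t, d.1.1 ∈ powersetCard s (univ.erase z) ∧
      d.1.2.1 ∈ powersetCard t ((univ.erase z) \ d.1.1) ∧
      d.1.2.2 ∈ Fintype.piFinset (T z d.1.1 d.1.2.1) := by
    intro d
    have := d.2
    unfold Idx at this
    rw [mem_sigma, mem_sigma] at this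
    exact this
  refine Nat.card_le_card_of_injective
    (fun d => ⟨ord d.1.2.2, graded_ord (valid_of_mem (hmem d).2.2) z (by simp [lev])
      (lev_le z _ _)⟩) ?_
  intro d d' hdd
  have e : ord d.1.2.2 = ord d'.1.2.2 := congrArg Subtype.val hdd
  have hl := level_eq (valid_of_mem (hmem d).2.2) (valid_of_mem (hmem d').2.2) e
  have hc := cover_eq (valid_of_mem (hmem d).2.2) (valid_of_mem (hmem d').2.2) e
  have hA : d.1.1 = d'.1.1 := by
    ext p
    rw [mem_A (B := d.1.2.1) (hmem d).1, mem_A (B := d'.1.2.1) (hmem d').1, hl]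
  have hB : d.1.2.1 = d'.1.2.1 := by
    ext p
    rw [mem_B (hmem d).2.1, mem_B (hmem d').2.1, hl]
  obtain ⟨⟨A, B, c⟩, hd⟩ := d
  obtain ⟨⟨A', B', c'⟩, hd'⟩ := d'
  simp only at hA hB hc
  subst hA hB hc
  rfl

lemma card_T_zero {z : Fin n} {A B : Finset (Fin n)} {p : Fin n} (h : lev z A B p = 0) :
    (T z A B p).card = 1 := by
  unfold T; rw [if_pos h]; rfl

lemma card_T_pos {z : Fin n} {A B : Finset (Fin n)} {p : Fin n} {j : ℕ}
    (h : lev z A B p = j + 1) :
    (T z A B p).card = 2 ^ (univ.filter (fun x => lev z A B x = j)).card - 1 := by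
  unfold T
  rw [if_neg (by omega), card_erase_of_mem (empty_mem_powerset _), card_powerset]
  congr 3
  ext x
  simp only [mem_filter, mem_univ, true_and]
  omega

lemma card_pi (z : Fin n) (t : ℕ) (hn : n = 6 * t + 1) {A B : Finset (Fin n)}
    (hA : A ∈ powersetCard (3 * t) (univ.erase z))
    (hB : B ∈ powersetCard t ((univ.erase z) \ A)) :
    (Fintype.piFinset (T z A B)).card =
      (2 ^ t - 1) ^ (3 * t) * (2 ^ (3 * t) - 1) ^ (2 * t) * (2 ^ (2 * t) - 1) := by
  classical
  have hA' := mem_powersetCard.1 hA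
  have hB' := mem_powersetCard.1 hB
  have cS : (univ.erase z : Finset (Fin n)).card = 6 * t := by
    rw [card_erase_of_mem (mem_univ z), card_univ, Fintype.card_fin, hn]; rfl
  have cSA : ((univ.erase z) \ A).card = 3 * t := by
    rw [card_sdiff_of_subset hA'.1, cS, hA'.2]; omega
  have cC : (((univ.erase z) \ A) \ B).card = 2 * t := by
    rw [card_sdiff_of_subset hB'.1, cSA, hB'.2]; omega
  have f0 : univ.filter (fun x => lev z A B x = 0) = B := by
    ext x; simp [← mem_B hB]
  have f1 : univ.filter (fun x => lev z A B x = 1) = A := by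
    ext x; simp [← mem_A (B := B) hA]
  have f2 : univ.filter (fun x => lev z A B x = 2) = ((univ.erase z) \ A) \ B := by
    ext x
    simp only [mem_filter, mem_univ, true_and, mem_sdiff, mem_erase, and_true]
    unfold lev
    by_cases h1 : x = z
    · simp [h1]
    · by_cases h2 : x ∈ A
      · simp [h1, h2]
      · by_cases h3 : x ∈ B <;> simp [h1, h2, h3]
  rw [Fintype.card_piFinset]
  have p1 : ∀ p ∈ A, (T z A B p).card = 2 ^ t - 1 := by
    intro p hp
    rw [card_T_pos (j := 0) (by rw [mem_A (B := B) hA] at hp; exact hp), f0, hB'.2]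
  have p0 : ∀ p ∈ B, (T z A B p).card = 1 := by
    intro p hp
    rw [card_T_zero ((mem_B hB p).1 hp)]
  have p2 : ∀ p ∈ ((univ.erase z) \ A) \ B, (T z A B p).card = 2 ^ (3 * t) - 1 := by
    intro p hp
    have hp' : p ∈ univ.filter (fun x => lev z A B x = 2) := by rw [f2]; exact hp
    rw [card_T_pos (j := 1) (mem_filter.1 hp').2, f1, hA'.2]
  have p3 : (T z A B z).card = 2 ^ (2 * t) - 1 := by
    rw [card_T_pos (j := 2) (by simp [lev]), f2, cC]
  rw [← mul_prod_erase univ _ (mem_univ z), p3, ← prod_sdiff hA'.1, prod_eq_pow_card p1,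
    ← prod_sdiff hB'.1, prod_eq_pow_card p0, prod_eq_pow_card p2, cC, hB'.2, hA'.2]
  ring

lemma count (t : ℕ) : ((6 * t).choose (3 * t) * (3 * t).choose t) *
    ((2 ^ t - 1) ^ (3 * t) * (2 ^ (3 * t) - 1) ^ (2 * t) * (2 ^ (2 * t) - 1)) ≤
    a 4 (6 * t + 1) := by
  refine le_trans (le_of_eq ?_) (card_idx_le (n := 6 * t + 1) (Fin.last _) (3 * t) t)
  unfold Idx
  rw [card_sigma]
  have cS : (univ.erase (Fin.last (6 * t)) : Finset (Fin (6 * t + 1))).card = 6 * t := by
    rw [card_erase_of_mem (mem_univ _), card_univ, Fintype.card_fin]; rfl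
  have inner : ∀ A ∈ powersetCard (3 * t) (univ.erase (Fin.last (6 * t))),
      ((powersetCard t ((univ.erase (Fin.last (6 * t))) \ A)).sigma
        (fun B => Fintype.piFinset (T (Fin.last (6 * t)) A B))).card = (3 * t).choose t *
    ((2 ^ t - 1) ^ (3 * t) * (2 ^ (3 * t) - 1) ^ (2 * t) * (2 ^ (2 * t) - 1)) := by
    intro A hA
    rw [card_sigma, sum_congr rfl (fun B hB => card_pi (Fin.last (6 * t)) t rfl hA hB),
      sum_const, card_powersetCard]
    have hA' := mem_powersetCard.1 hA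
    have cSA : ((univ.erase (Fin.last (6 * t))) \ A).card = 3 * t := by
      rw [card_sdiff_of_subset hA'.1, cS, hA'.2]; omega
    rw [cSA, smul_eq_mul]
  rw [sum_congr rfl inner, sum_const, card_powersetCard, cS, smul_eq_mul]
  ring

end count

/-! ### Estimates -/

lemma pow_pred (K m : ℕ) (h : 2 * m ≤ 2 ^ K) : 2 ^ (K * m) ≤ 2 * (2 ^ K - 1) ^ m := by
  have hpos : (0 : ℝ) < 2 ^ K := by positivity
  have h1 : (1 : ℝ) + m * (-(1 / 2 ^ K)) ≤ (1 + -(1 / 2 ^ K)) ^ m := by
    apply one_add_mul_le_pow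
    have : (1 : ℝ) / 2 ^ K ≤ 1 := by
      rw [div_le_one hpos]
      exact one_le_pow₀ (by norm_num)
    linarith
  have h2 : (m : ℝ) * (1 / 2 ^ K) ≤ 1 / 2 := by
    rw [mul_one_div, div_le_div_iff₀ hpos (by norm_num)]
    have : ((2 * m : ℕ) : ℝ) ≤ ((2 ^ K : ℕ) : ℝ) := by exact_mod_cast h
    push_cast at this
    linarith
  have h3 : (1 : ℝ) / 2 ≤ (1 + -(1 / 2 ^ K)) ^ m := by linarith
  have h4 : (2 : ℝ) ^ (K * m) ≤ 2 * (2 ^ K - 1) ^ m := by
    have e : ((2 : ℝ) ^ K - 1) ^ m = (2 ^ K) ^ m * (1 + -(1 / 2 ^ K)) ^ m := by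
      rw [← mul_pow]
      congr 1
      field_simp
      ring
    rw [e, pow_mul]
    have : (0 : ℝ) < (2 ^ K) ^ m := by positivity
    nlinarith
  have h5 : (1 : ℕ) ≤ 2 ^ K := Nat.one_le_two_pow
  have : ((2 ^ (K * m) : ℕ) : ℝ) ≤ ((2 * (2 ^ K - 1) ^ m : ℕ) : ℝ) := by
    push_cast [Nat.cast_sub h5]
    exact h4
  exact_mod_cast this

lemma choose_ratio (t : ℕ) : (3 * (t + 1)).choose (t + 1) * (2 * (t + 1) * (2 * t + 1)) =
    (3 * t).choose t * (3 * (3 * t + 2) * (3 * t + 1)) := by
  have h1 : (3 * t).choose t * t.factorial * (2 * t).factorial = (3 * t).factorial := by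
    have := Nat.choose_mul_factorial_mul_factorial (n := 3 * t) (k := t) (by omega)
    rw [show 3 * t - t = 2 * t by omega] at this
    exact this
  have h2 : (3 * (t + 1)).choose (t + 1) * (t + 1).factorial * (2 * (t + 1)).factorial =
      (3 * (t + 1)).factorial := by
    have := Nat.choose_mul_factorial_mul_factorial (n := 3 * (t + 1)) (k := t + 1) (by omega)
    rw [show 3 * (t + 1) - (t + 1) = 2 * (t + 1) by omega] at this
    exact this
  have h3 : (3 * (t + 1)).factorial = (3 * t + 3) * ((3 * t + 2) * ((3 * t + 1) *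
      (3 * t).factorial)) := by
    rw [show 3 * (t + 1) = 3 * t + 2 + 1 by ring, Nat.factorial_succ,
      show 3 * t + 2 = 3 * t + 1 + 1 by ring, Nat.factorial_succ, Nat.factorial_succ]
  have h4 : (2 * (t + 1)).factorial = (2 * t + 2) * ((2 * t + 1) * (2 * t).factorial) := by
    rw [show 2 * (t + 1) = 2 * t + 1 + 1 by ring, Nat.factorial_succ, Nat.factorial_succ]
  have h5 : (t + 1).factorial = (t + 1) * t.factorial := Nat.factorial_succ t
  rw [h3, h4, h5, ← h1] at h2
  have hp : 0 < (t + 1) * t.factorial * (2 * t).factorial := by positivity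
  apply Nat.eq_of_mul_eq_mul_right hp
  calc _ = (3 * (t + 1)).choose (t + 1) * ((t + 1) * t.factorial) *
      ((2 * t + 2) * ((2 * t + 1) * (2 * t).factorial)) := by ring
    _ = _ := by rw [h2]; ring

lemma choose_lower (t : ℕ) : 6 ^ t ≤ 3 * (3 * t).choose t := by
  have base : ∀ t, t ≤ 4 → 6 ^ t ≤ 3 * (3 * t).choose t := by decide
  by_cases ht : t ≤ 4
  · exact base t ht
  · push Not at ht
    induction t, ht using Nat.le_induction with
    | base => decide
    | succ t ht ih =>
      have h := choose_ratio t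
      have hq : 6 * (2 * (t + 1) * (2 * t + 1)) ≤ 3 * (3 * t + 2) * (3 * t + 1) := by nlinarith
      have hp : 0 < 2 * (t + 1) * (2 * t + 1) := by positivity
      apply Nat.le_of_mul_le_mul_right _ hp
      calc 6 ^ (t + 1) * (2 * (t + 1) * (2 * t + 1)) =
          6 ^ t * (6 * (2 * (t + 1) * (2 * t + 1))) := by ring
        _ ≤ (3 * (3 * t).choose t) * (3 * (3 * t + 2) * (3 * t + 1)) := Nat.mul_le_mul ih hq
        _ = 3 * ((3 * t).choose t * (3 * (3 * t + 2) * (3 * t + 1))) := by ring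
        _ = _ := by rw [← h]; ring

lemma main_nat (t : ℕ) (ht : 5 ≤ t) :
    2 ^ (6 * t) * 6 ^ t * 2 ^ (9 * t ^ 2 + 2 * t) ≤ 144 * t * a 4 (6 * t + 1) := by
  have h2 : ∀ t, 5 ≤ t → 6 * t ≤ 2 ^ t := by
    intro t ht
    induction t, ht using Nat.le_induction with
    | base => decide
    | succ t ht ih => rw [pow_succ]; omega
  have e1 := pow_pred t (3 * t) (by have := h2 t ht; omega)
  have e2 := pow_pred (3 * t) (2 * t) (by
    have := h2 t ht
    have h3 : 2 ^ t ≤ 2 ^ (3 * t) := Nat.pow_le_pow_right (by norm_num) (by omega)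
    omega)
  have e3 := pow_pred (2 * t) 1 (by
    have := h2 t ht
    have h3 : 2 ^ t ≤ 2 ^ (2 * t) := Nat.pow_le_pow_right (by norm_num) (by omega)
    omega)
  have c1 : 4 ^ (3 * t) ≤ 2 * (3 * t) * (6 * t).choose (3 * t) := by
    have := Nat.four_pow_le_two_mul_self_mul_centralBinom (3 * t) (by omega)
    rw [Nat.centralBinom_eq_two_mul_choose, show 2 * (3 * t) = 6 * t by ring] at this
    rw [show 2 * (3 * t) = 6 * t by ring]
    exact this
  have c2 := choose_lower t
  have hc := count t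
  have E : 2 ^ (9 * t ^ 2 + 2 * t) = 2 ^ (t * (3 * t)) * 2 ^ (3 * t * (2 * t)) *
      2 ^ (2 * t * 1) := by
    rw [← pow_add, ← pow_add]; congr 1; ring
  have E2 : 2 ^ (6 * t) = 4 ^ (3 * t) := by
    rw [show (4 : ℕ) = 2 ^ 2 by norm_num, ← pow_mul]; congr 1; ring
  rw [E, E2]
  calc 4 ^ (3 * t) * 6 ^ t * (2 ^ (t * (3 * t)) * 2 ^ (3 * t * (2 * t)) * 2 ^ (2 * t * 1))
      ≤ (2 * (3 * t) * (6 * t).choose (3 * t)) * (3 * (3 * t).choose t) *
        ((2 * (2 ^ t - 1) ^ (3 * t)) * (2 * (2 ^ (3 * t) - 1) ^ (2 * t)) *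
          (2 * (2 ^ (2 * t) - 1) ^ 1)) := by gcongr
    _ = 144 * t * (((6 * t).choose (3 * t) * (3 * t).choose t) *
    ((2 ^ t - 1) ^ (3 * t) * (2 ^ (3 * t) - 1) ^ (2 * t) * (2 ^ (2 * t) - 1))) := by
        rw [pow_one]; ring
    _ ≤ _ := Nat.mul_le_mul_left _ hc

lemma main_nat' (u : ℕ) (hu : 1 ≤ u) :
    2 ^ (5184 * u ^ 2 + 254 * u) ≤ 3456 * u * a 4 (144 * u + 1) := by
  have h := main_nat (24 * u) (by omega)
  have h6 : 2 ^ (62 * u) ≤ 6 ^ (24 * u) := by
    rw [pow_mul, pow_mul]
    exact Nat.pow_le_pow_left (by norm_num) u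
  rw [show 6 * (24 * u) = 144 * u by ring, show 144 * (24 * u) = 3456 * u by ring] at h
  refine le_trans ?_ h
  calc 2 ^ (5184 * u ^ 2 + 254 * u) =
      2 ^ (144 * u) * 2 ^ (62 * u) * 2 ^ (9 * (24 * u) ^ 2 + 2 * (24 * u)) := by
        rw [← pow_add, ← pow_add]; congr 1; ring
    _ ≤ _ := by gcongr

lemma log_lower (u : ℕ) (hu : 18 ≤ u) :
    ((144 * u + 1 : ℕ) : ℝ) ^ 2 / 4 + (5 / 4 + 1 / 288) * ((144 * u + 1 : ℕ) : ℝ) ≤
      Real.logb 2 (a 4 (144 * u + 1)) := by
  have hu1 : 1 ≤ u := by omega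
  have h1 := main_nat' u hu1
  have h2 : ∀ u, 18 ≤ u → 13824 * u ≤ 2 ^ u := by
    intro u hu
    induction u, hu using Nat.le_induction with
    | base => norm_num
    | succ u hu ih => rw [pow_succ]; omega
  have h3 := h2 u hu
  have h4 : 2 ^ (5184 * u ^ 2 + 253 * u + 2) ≤ a 4 (144 * u + 1) := by
    have hpos : 0 < 3456 * u := by omega
    apply Nat.le_of_mul_le_mul_left _ hpos
    refine le_trans ?_ h1
    calc 3456 * u * 2 ^ (5184 * u ^ 2 + 253 * u + 2)
        = (13824 * u) * 2 ^ (5184 * u ^ 2 + 253 * u) := by rw [pow_add _ _ 2]; ring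
      _ ≤ 2 ^ u * 2 ^ (5184 * u ^ 2 + 253 * u) := Nat.mul_le_mul_right _ h3
      _ = _ := by rw [← pow_add]; congr 1; ring
  have h5 : ((5184 * u ^ 2 + 253 * u + 2 : ℕ) : ℝ) ≤ Real.logb 2 (a 4 (144 * u + 1)) := by
    have hp : (0 : ℝ) < 2 ^ (5184 * u ^ 2 + 253 * u + 2) := by positivity
    have h6 : ((2 : ℝ) ^ (5184 * u ^ 2 + 253 * u + 2)) ≤ (a 4 (144 * u + 1) : ℝ) := by
      exact_mod_cast h4
    have h7 := Real.logb_le_logb_of_le (b := 2) (by norm_num) hp h6
    rw [Real.logb_pow, Real.logb_self_eq_one (by norm_num), mul_one] at h7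
    exact h7
  refine le_trans ?_ h5
  have hu' : (18 : ℝ) ≤ u := by exact_mod_cast hu
  push_cast
  nlinarith

/-- **Result.** `log₂ a₄(n) = n²/4 + (5/4) n + O(log n)` fails: for arbitrarily large `n` one has
`log₂ a₄(n) ≥ n²/4 + (5/4 + 1/288) n`; in particular, for every constant `C` there are arbitrarily
large `n` with `|log₂ a₄(n) - n²/4 - (5/4) n| > C log n`. -/
theorem result :
    (∀ N : ℕ, ∃ n : ℕ, N ≤ n ∧
      (n : ℝ) ^ 2 / 4 + (5 / 4 + 1 / 288) * (n : ℝ) ≤ Real.logb 2 (a 4 n)) ∧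
    (∀ C : ℝ, ∀ N : ℕ, ∃ n : ℕ, N ≤ n ∧
      C * Real.log n < |Real.logb 2 (a 4 n) - (n : ℝ) ^ 2 / 4 - 5 / 4 * (n : ℝ)|) := by
  have first : ∀ N : ℕ, ∃ n : ℕ, N ≤ n ∧
      (n : ℝ) ^ 2 / 4 + (5 / 4 + 1 / 288) * (n : ℝ) ≤ Real.logb 2 (a 4 n) := by
    intro N
    exact ⟨144 * (N + 18) + 1, by omega, log_lower (N + 18) (by omega)⟩
  refine ⟨first, ?_⟩
  intro C N
  have hlim : Filter.Tendsto (fun n : ℕ => Real.log n / (n : ℝ)) Filter.atTop (nhds 0) := by
    have h := Real.isLittleO_log_id_atTop.tendsto_div_nhds_zero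
    exact h.comp tendsto_natCast_atTop_atTop
  have hev : ∀ᶠ n : ℕ in Filter.atTop, |C| * (Real.log n / (n : ℝ)) < 1 / 288 := by
    have h2 : Filter.Tendsto (fun n : ℕ => |C| * (Real.log n / (n : ℝ))) Filter.atTop
        (nhds (|C| * 0)) := hlim.const_mul _
    rw [mul_zero] at h2
    exact h2.eventually (gt_mem_nhds (by norm_num))
  obtain ⟨M, hM⟩ := Filter.eventually_atTop.1 hev
  obtain ⟨n, hn, hn2⟩ := first (max (max N M) 1)
  have hn1 : 1 ≤ n := le_trans (le_max_right _ _) hn
  have hnM : M ≤ n := le_trans (le_trans (le_max_right _ _) (le_max_left _ _)) hn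
  have hnN : N ≤ n := le_trans (le_trans (le_max_left _ _) (le_max_left _ _)) hn
  refine ⟨n, hnN, ?_⟩
  have hpos : (0 : ℝ) < n := by exact_mod_cast hn1
  have h3 := hM n hnM
  rw [← mul_div_assoc, div_lt_iff₀ hpos] at h3
  have hlog : 0 ≤ Real.log n := Real.log_natCast_nonneg n
  have h4 : C * Real.log n ≤ |C| * Real.log n :=
    mul_le_mul_of_nonneg_right (le_abs_self C) hlog
  refine lt_of_lt_of_le (lt_of_le_of_lt h4 h3) (le_trans ?_ (le_abs_self _))
  linarith

end Pool.Agent.Results.MP_ac85ec_co.FourLevels
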